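import Mathlib
import Pool.Agent.H42.Mchain

open Cardinal

/-- A partial order such that every cofinal subset has a maximal chain whose cardinality is
infinite and not regular. -/
theorem Pool.Agent.Results.MP_43ca77_lc.Yes.result :
    ∃ (P : Type) (_ : PartialOrder P), ∀ Q : Set P, IsCofinal Q →
      ¬ ∀ M : Set P, Maximal (fun C => C ⊆ Q ∧ IsChain (· ≤ ·) C) M →
        M.Finite ∨ (Cardinal.mk M).IsRegular := by
  refine ⟨Pool.Agent.H42.Mchain.P, inferInstance, fun Q hQ h => ?_⟩
  obtain ⟨M, a, b⟩ := Pool.Agent.H42.Mchain.main hQ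
  rcases h M a with e | e
  · exact e.lt_aleph0.not_ge (b ▸ aleph0_le_aleph _)
  · exact e.not_isSingular (b ▸ isSingular_aleph_omega0)
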